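import Pool.Agent.H13.NL.Main1

/-!
# THEOREM NL: the End (MP_3ca58e_al), given the main claim
-/

namespace Pool.Agent.H13.NL

open Filter Topology

variable {X : Type*} [PseudoMetricSpace X] {G : Type*} [Group G] [MulAction G X]
  [IsIsometricSMul G X]

/-- If every `y` for which `(y h^n o | h^(-n) o)_o` stays bounded along infinitely many `n` is a
power of `a`, then every element is a power of `a`. -/
theorem end_of_claim {d : ℝ} (hd : FourPoint X d) (o : X) (a : G) (k : ℕ) {C : ℝ}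
    (hC : ∀ n : ℕ, gp o (((a ^ k) ^ n)⁻¹ • o) ((a ^ k) ^ n • o) ≤ C)
    (hpos : ∀ g : G, g ≠ 1 → 0 < ell o g)
    (claim : ∀ (y : G) (C' : ℝ),
      (∃ᶠ n in atTop, gp o ((y * (a ^ k) ^ n) • o) (((a ^ k) ^ n)⁻¹ • o) ≤ C') →
        y ∈ Subgroup.zpowers a) (y : G) :
    y ∈ Subgroup.zpowers a := by
  by_contra hy
  have h0 := d_nonneg hd o
  have hyi : y⁻¹ ∉ Subgroup.zpowers a := fun h => hy ((Subgroup.inv_mem_iff _).1 h)
  have e1 : ∀ C' : ℝ, ∀ᶠ n in atTop,
      C' < gp o ((y * (a ^ k) ^ n) • o) (((a ^ k) ^ n)⁻¹ • o) := by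
    intro C'
    have := mt (claim y C') hy
    rw [not_frequently] at this
    exact this.mono fun n hn => not_le.1 hn
  have e2 : ∀ C' : ℝ, ∀ᶠ n in atTop,
      C' < gp o ((y⁻¹ * (a ^ k) ^ n) • o) (((a ^ k) ^ n)⁻¹ • o) := by
    intro C'
    have := mt (claim y⁻¹ C') hyi
    rw [not_frequently] at this
    exact this.mono fun n hn => not_le.1 hn
  -- the square
  have hsq : y * y ∈ Subgroup.zpowers a := by
    refine claim (y * y) (C + d) (Eventually.frequently ?_)
    filter_upwards [e1 (C + 2 * d + dist o (y • o) + 1), e2 (C + 2 * d + dist o (y • o) + 1)]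
      with n h1 h2
    exact swap_sq hd o ((a ^ k) ^ n) y (hC n) h1.le h2.le (by linarith)
  obtain ⟨j, hj⟩ := Subgroup.mem_zpowers_iff.1 hsq
  have hy1 : y ≠ 1 := by
    rintro rfl
    exact hy (Subgroup.one_mem _)
  have hj0 : j ≠ 0 := by
    rintro rfl
    rw [zpow_zero] at hj
    have h1 := ell_pow o y 2
    rw [pow_two, ← hj, ell_one] at h1
    have := hpos y hy1
    push_cast at h1
    linarith
  -- y commutes with a power of h
  have hcomm : Commute y (a ^ j) := by
    rw [hj]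
    exact (Commute.refl y).mul_right (Commute.refl y)
  have hcomm' : Commute y (a ^ j.natAbs) := by
    obtain ⟨m, rfl | rfl⟩ := j.eq_nat_or_neg
    · rw [zpow_natCast] at hcomm
      simpa using hcomm
    · rw [zpow_neg, zpow_natCast] at hcomm
      simpa using hcomm.inv_right
  have hfreq : ∃ᶠ n in atTop, gp o ((y * (a ^ k) ^ n) • o) (((a ^ k) ^ n)⁻¹ • o) ≤
      C + dist o (y • o) := by
    rw [frequently_atTop]
    intro N
    refine ⟨N * j.natAbs, Nat.le_mul_of_pos_right N (Int.natAbs_pos.2 hj0), ?_⟩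
    have h1 : Commute y ((a ^ k) ^ (N * j.natAbs)) := by
      have e : (a ^ k) ^ (N * j.natAbs) = (a ^ j.natAbs) ^ (k * N) := by
        rw [← pow_mul, ← pow_mul]; ring_nf
      rw [e]
      exact hcomm'.pow_right _
    have h2 := gp_commute_bound o ((a ^ k) ^ (N * j.natAbs)) y h1
    have h3 := hC (N * j.natAbs)
    rw [gp_comm] at h3
    linarith
  exact hfreq ((e1 (C + dist o (y • o))).mono fun n hn => not_le.2 hn)

/-- Choice of the loxodromic element `h = a ^ k`. -/
theorem exists_h {d : ℝ} (hd : FourPoint X d) (o : X) (a : G) (ha : 0 < ell o a) :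
    ∃ k : ℕ, 1 ≤ k ∧ ∃ C : ℝ,
      (∀ n m : ℕ, gp o (((a ^ k) ^ n)⁻¹ • o) ((a ^ k) ^ m • o) ≤ C) ∧
      Tendsto (fun n : ℕ => dist o ((a ^ k) ^ n • o)) atTop atTop := by
  have h0 := d_nonneg hd o
  obtain ⟨k, hk, h1⟩ := exists_power o a ha (3 * d + 1)
  have h2 : 2 * gp o ((a ^ k)⁻¹ • o) (a ^ k • o) + 3 * d < dist o (a ^ k • o) := by
    rw [gp_inv_self]
    linarith
  refine ⟨k, hk, _, fun n m => local_to_global hd o (a ^ k) h2 n m, ?_⟩
  have h3 := dist_pow_ge' hd o (a ^ k) h2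
  refine tendsto_atTop_mono h3 ?_
  refine Tendsto.atTop_mul_const ?_ tendsto_natCast_atTop_atTop
  linarith

end Pool.Agent.H13.NL
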