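import Mathlib

/-!
# Elementary geometry of the four point condition (for MP_3ca58e_al, property (NL))

`X` is a pseudo-metric space with the four point condition
`dist x z + dist y w ≤ max (dist x y + dist z w) (dist x w + dist y z) + 2 * d`,
`G` a group acting on `X` by isometries.
-/

namespace Pool.Agent.H13.NL

open Filter Topology

section Gromov

variable {X : Type*} [PseudoMetricSpace X]

/-- The four point condition with constant `d`. -/
def FourPoint (X : Type*) [PseudoMetricSpace X] (d : ℝ) : Prop :=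
  ∀ x y z w : X, dist x z + dist y w ≤ max (dist x y + dist z w) (dist x w + dist y z) + 2 * d

/-- The Gromov product. -/
noncomputable def gp (o x y : X) : ℝ := (dist o x + dist o y - dist x y) / 2

theorem gp_comm (o x y : X) : gp o x y = gp o y x := by
  unfold gp; rw [dist_comm x y]; ring

theorem gp_nonneg (o x y : X) : 0 ≤ gp o x y := by
  unfold gp
  have := dist_triangle x o y
  rw [dist_comm x o] at this
  linarith

theorem gp_le_left (o x y : X) : gp o x y ≤ dist o x := by
  unfold gp
  have := dist_triangle o x y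
  linarith

theorem gp_le_right (o x y : X) : gp o x y ≤ dist o y := by
  rw [gp_comm]; exact gp_le_left o y x

theorem gp_self_left (o y : X) : gp o o y = 0 := by
  unfold gp; simp

theorem gp_self_right (o x : X) : gp o x o = 0 := by
  rw [gp_comm]; exact gp_self_left o x

/-- Change of the base point. -/
theorem gp_base (o p x y : X) : gp o x y - dist o p ≤ gp p x y := by
  unfold gp
  have h1 := dist_triangle o p x
  have h2 := dist_triangle o p y
  linarith

/-- Change of one of the points. -/
theorem gp_move (o x y z : X) : gp o x z - dist x y ≤ gp o y z := by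
  unfold gp
  have h1 := dist_triangle o y x
  have h2 := dist_triangle y x z
  rw [dist_comm y x] at h1 h2
  linarith

theorem gp_self (o x : X) : gp o x x = dist o x := by
  unfold gp; simp

/-- A point near `x` has a large product with `x`. -/
theorem gp_near (o x y : X) : dist o x - dist x y ≤ gp o x y := by
  unfold gp
  have h1 := dist_triangle o y x
  rw [dist_comm y x] at h1
  linarith

variable {d : ℝ} (hd : FourPoint X d)

include hd

theorem d_nonneg (x : X) : 0 ≤ d := by
  have := hd x x x x
  simp at this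
  exact this

theorem gp_min (o x y z : X) : min (gp o x y) (gp o y z) - d ≤ gp o x z := by
  have h := hd x y z o
  unfold gp
  rcases le_max_iff.1 (show dist x z + dist y o - 2 * d ≤
      max (dist x y + dist z o) (dist x o + dist y z) by linarith) with h1 | h1
  · refine le_trans (sub_le_sub_right (min_le_left _ _) d) ?_
    rw [dist_comm o x, dist_comm o y, dist_comm o z]
    linarith
  · refine le_trans (sub_le_sub_right (min_le_right _ _) d) ?_
    rw [dist_comm o x, dist_comm o y, dist_comm o z]
    linarith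

theorem gp_min3 (o x y z w : X) :
    min (gp o x y) (min (gp o y z) (gp o z w)) - 2 * d ≤ gp o x w := by
  have h0 := d_nonneg hd o
  have h1 := gp_min hd o x y w
  have h2 := gp_min hd o y z w
  rcases le_total (gp o x y) (gp o y w) with h | h
  · rw [min_eq_left h] at h1
    have := min_le_left (gp o x y) (min (gp o y z) (gp o z w))
    linarith
  · rw [min_eq_right h] at h1
    have := min_le_right (gp o x y) (min (gp o y z) (gp o z w))
    linarith

/-- If `x`, `y` are close seen from `o` and so are `z`, `w`, then `gp o y z` is controlled by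
`gp o x w`. -/
theorem gp_transfer {o x y z w : X} {C : ℝ} (h : gp o x w ≤ C)
    (h1 : C + 2 * d < gp o x y) (h2 : C + 2 * d < gp o z w) : gp o y z ≤ C + 2 * d := by
  have h3 := gp_min3 hd o x y z w
  by_contra hcon
  push Not at hcon
  have : C + 2 * d < min (gp o x y) (min (gp o y z) (gp o z w)) :=
    lt_min h1 (lt_min hcon h2)
  linarith

end Gromov

section Action

variable {X : Type*} [PseudoMetricSpace X] {G : Type*} [Group G] [MulAction G X]
  [IsIsometricSMul G X]

theorem gp_smul (g : G) (o x y : X) : gp (g • o) (g • x) (g • y) = gp o x y := by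
  unfold gp; simp

/-- `dist o (g⁻¹ • o) = dist o (g • o)`. -/
theorem dist_inv (o : X) (g : G) : dist o (g⁻¹ • o) = dist o (g • o) := by
  rw [← dist_smul g o (g⁻¹ • o), smul_inv_smul, dist_comm]

theorem dist_mul_le (o : X) (g h : G) :
    dist o ((g * h) • o) ≤ dist o (g • o) + dist o (h • o) := by
  have := dist_triangle o (g • o) ((g * h) • o)
  rw [mul_smul, dist_smul] at this
  rwa [mul_smul]

/-- The sequence `dist o (g ^ n • o)` is subadditive. -/
theorem subadd (o : X) (g : G) : Subadditive (fun n : ℕ => dist o (g ^ n • o)) := by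
  intro m n
  have := dist_mul_le o (g ^ m) (g ^ n)
  simpa [pow_add] using this

/-- Stable translation length. -/
noncomputable def ell (o : X) (g : G) : ℝ := (subadd o g).lim

omit [IsIsometricSMul G X] in
theorem bdd (o : X) (g : G) :
    BddBelow (Set.range fun n : ℕ => (fun n : ℕ => dist o (g ^ n • o)) n / n) := by
  refine ⟨0, ?_⟩
  rintro _ ⟨n, rfl⟩
  positivity

theorem tendsto_ell (o : X) (g : G) :
    Tendsto (fun n : ℕ => dist o (g ^ n • o) / n) atTop (𝓝 (ell o g)) :=
  (subadd o g).tendsto_lim (bdd o g)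

theorem ell_nonneg (o : X) (g : G) : 0 ≤ ell o g :=
  ge_of_tendsto' (tendsto_ell o g) fun n => by positivity

theorem mul_ell_le (o : X) (g : G) (n : ℕ) : n * ell o g ≤ dist o (g ^ n • o) := by
  rcases Nat.eq_zero_or_pos n with h | h
  · subst h; simp
  · have h1 := (subadd o g).lim_le_div (bdd o g) (n := n) h.ne'
    have h2 : (0 : ℝ) < n := by exact_mod_cast h
    have h3 : ell o g ≤ dist o (g ^ n • o) / n := h1
    rw [le_div_iff₀ h2] at h3
    linarith

theorem ell_le (o : X) (g : G) : ell o g ≤ dist o (g • o) := by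
  have := mul_ell_le o g 1
  simpa using this

theorem ell_pow (o : X) (g : G) (n : ℕ) : ell o (g ^ n) = n * ell o g := by
  rcases Nat.eq_zero_or_pos n with h | h
  · subst h
    have h1 := tendsto_ell o (g ^ 0)
    have h2 : (fun n : ℕ => dist o ((g ^ 0) ^ n • o) / n) = fun _ => 0 := by
      funext m; simp
    rw [h2] at h1
    have := tendsto_nhds_unique h1 tendsto_const_nhds
    rw [this]
    simp
  · have h2 : (0 : ℝ) < n := by exact_mod_cast h
    have h3 : Tendsto (fun m : ℕ => n * m) atTop atTop :=
      tendsto_id.const_mul_atTop' h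
    have h4 := ((tendsto_ell o g).comp h3).const_mul (n : ℝ)
    have h5 : (fun m : ℕ => (n : ℝ) * ((fun n : ℕ => dist o (g ^ n • o) / n) ∘
        (fun m : ℕ => n * m)) m) =
        fun m : ℕ => dist o ((g ^ n) ^ m • o) / m := by
      funext m
      simp only [Function.comp_apply, Nat.cast_mul]
      rw [← pow_mul]
      field_simp
    rw [h5] at h4
    exact tendsto_nhds_unique (tendsto_ell o (g ^ n)) h4

theorem ell_inv (o : X) (g : G) : ell o g⁻¹ = ell o g := by
  have h1 := tendsto_ell o g⁻¹
  have h2 : (fun n : ℕ => dist o ((g⁻¹) ^ n • o) / n) = fun n : ℕ => dist o (g ^ n • o) / n := by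
    funext n
    rw [inv_pow, dist_inv]
  rw [h2] at h1
  exact tendsto_nhds_unique h1 (tendsto_ell o g)

theorem ell_zpow (o : X) (g : G) (n : ℤ) : ell o (g ^ n) = |(n : ℝ)| * ell o g := by
  obtain ⟨m, rfl | rfl⟩ := n.eq_nat_or_neg
  · simp [ell_pow]
  · simp [ell_pow, ell_inv]

theorem ell_conj (o : X) (g h : G) : ell o (h * g * h⁻¹) = ell o g := by
  have h1 := tendsto_ell o (h * g * h⁻¹)
  have h2 := tendsto_ell o g
  have h3 : Tendsto (fun n : ℕ => (2 * dist o (h • o)) / (n : ℝ)) atTop (𝓝 0) :=
    tendsto_const_div_atTop_nhds_zero_nat _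
  have h4 : ∀ n : ℕ, |dist o ((h * g * h⁻¹) ^ n • o) - dist o (g ^ n • o)| ≤
      2 * dist o (h • o) := by
    intro n
    rw [conj_pow]
    have e1 := dist_mul_le o (h * g ^ n) h⁻¹
    have e2 := dist_mul_le o h (g ^ n)
    have e3 := dist_mul_le o (h⁻¹ * (h * g ^ n * h⁻¹)) h
    have e4 := dist_mul_le o h⁻¹ (h * g ^ n * h⁻¹)
    rw [dist_inv] at e1 e4
    have e5 : h⁻¹ * (h * g ^ n * h⁻¹) * h = g ^ n := by group
    rw [e5] at e3
    rw [abs_le]
    constructor <;> linarith
  have h5 : Tendsto (fun n : ℕ => dist o ((h * g * h⁻¹) ^ n • o) / n - dist o (g ^ n • o) / n)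
      atTop (𝓝 0) := by
    refine squeeze_zero_norm (fun n => ?_) h3
    rw [Real.norm_eq_abs, ← sub_div, abs_div, Nat.abs_cast]
    exact div_le_div_of_nonneg_right (h4 n) (Nat.cast_nonneg n)
  have h6 := h1.sub h2
  have := tendsto_nhds_unique h6 h5
  linarith

theorem ell_one (o : X) : ell o (1 : G) = 0 := by
  have := ell_pow o (1 : G) 0
  simpa using this

variable {d : ℝ} (hd : FourPoint X d)

include hd

/-- The recursion `a_n + a_2 ≤ a_1 + max(a_(n+1), a_(n-1)) + 2 d`. -/
theorem rec_ineq (o : X) (g : G) (n : ℕ) :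
    dist o (g ^ (n + 1) • o) + dist o (g ^ 2 • o) ≤
      dist o (g • o) + max (dist o (g ^ (n + 2) • o)) (dist o (g ^ n • o)) + 2 * d := by
  have h := hd o (g ^ (n + 2) • o) (g ^ (n + 1) • o) (g ^ n • o)
  have e1 : dist (g ^ (n + 2) • o) (g ^ n • o) = dist o (g ^ 2 • o) := by
    rw [pow_add, mul_smul, dist_smul, dist_comm]
  have e2 : dist (g ^ (n + 1) • o) (g ^ n • o) = dist o (g • o) := by
    rw [pow_succ, mul_smul, dist_smul, dist_comm]
  have e3 : dist (g ^ (n + 2) • o) (g ^ (n + 1) • o) = dist o (g • o) := by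
    rw [pow_succ g (n + 1), mul_smul, dist_smul, dist_comm]
  rw [e1, e2, e3] at h
  rw [← max_add_add_right] at h
  have e4 : max (dist o (g ^ (n + 2) • o) + dist o (g • o))
      (dist o (g ^ n • o) + dist o (g • o)) =
      dist o (g • o) + max (dist o (g ^ (n + 2) • o)) (dist o (g ^ n • o)) := by
    rw [max_add_add_right]; ring
  first
    | linarith [e4]
    | (rw [max_add_add_right] at h; linarith)

/-- If `a_2 - a_1 = c > 2 d` then `a_(n+1) ≥ a_n + c - 2 d`. -/
theorem step_ge (o : X) (g : G) (hc : dist o (g • o) + 2 * d < dist o (g ^ 2 • o)) (n : ℕ) :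
    dist o (g ^ n • o) + (dist o (g ^ 2 • o) - dist o (g • o) - 2 * d) ≤
      dist o (g ^ (n + 1) • o) := by
  have h0 := d_nonneg hd o
  induction n with
  | zero =>
    have h1 := dist_mul_le o g g
    simp only [pow_zero, one_smul, dist_self, zero_add, pow_one]
    rw [pow_two]
    linarith
  | succ n ih =>
    have h1 := rec_ineq hd o g n
    rcases le_max_iff.1 (show dist o (g ^ (n + 1) • o) + dist o (g ^ 2 • o) - dist o (g • o)
        - 2 * d ≤ max (dist o (g ^ (n + 2) • o)) (dist o (g ^ n • o)) by linarith) with h2 | h2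
    · linarith
    · exfalso
      linarith

theorem dist_pow_ge (o : X) (g : G) (hc : dist o (g • o) + 2 * d < dist o (g ^ 2 • o)) (n : ℕ) :
    n * (dist o (g ^ 2 • o) - dist o (g • o) - 2 * d) ≤ dist o (g ^ n • o) := by
  induction n with
  | zero => simp
  | succ n ih =>
    have := step_ge hd o g hc n
    push_cast
    linarith

/-- `d(o, g² o) ≤ d(o, g o) + l(g) + 2 d`. -/
theorem two_step (o : X) (g : G) :
    dist o (g ^ 2 • o) ≤ dist o (g • o) + ell o g + 2 * d := by
  by_cases hc : dist o (g • o) + 2 * d < dist o (g ^ 2 • o)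
  · have h1 : dist o (g ^ 2 • o) - dist o (g • o) - 2 * d ≤ ell o g := by
      refine ge_of_tendsto (tendsto_ell o g) ?_
      filter_upwards [eventually_gt_atTop 0] with n hn
      have h2 : (0 : ℝ) < n := by exact_mod_cast hn
      rw [le_div_iff₀ h2]
      have := dist_pow_ge hd o g hc n
      linarith
    linarith
  · have := ell_nonneg o g
    linarith

omit hd in
/-- A power of an element of positive stable length moves `o` much farther in two steps than in
one. -/
theorem exists_power (o : X) (a : G) (ha : 0 < ell o a) (K : ℝ) :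
    ∃ k : ℕ, 1 ≤ k ∧ dist o (a ^ k • o) + K ≤ dist o ((a ^ k) ^ 2 • o) := by
  by_contra hcon
  push Not at hcon
  have h1 : ∀ i : ℕ, dist o (a ^ (2 ^ i) • o) ≤ dist o (a • o) + i * K := by
    intro i
    induction i with
    | zero => simp
    | succ i ih =>
      have h2 := hcon (2 ^ i) (Nat.one_le_two_pow)
      rw [← pow_mul, ← pow_succ] at h2
      push_cast
      linarith
  have h3 : ∀ i : ℕ, (2 : ℝ) ^ i * ell o a ≤ dist o (a • o) + i * K := by
    intro i
    have := mul_ell_le o a (2 ^ i)
    push_cast at this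
    exact this.trans (h1 i)
  have h4 : Tendsto (fun i : ℕ => (dist o (a • o) + i * K) / (2 : ℝ) ^ i) atTop (𝓝 (0 + 0 * K)) := by
    have e1 : Tendsto (fun i : ℕ => dist o (a • o) / (2 : ℝ) ^ i) atTop (𝓝 0) :=
      tendsto_const_nhds.div_atTop (tendsto_pow_atTop_atTop_of_one_lt (by norm_num))
    have e2 : Tendsto (fun i : ℕ => (i : ℝ) / (2 : ℝ) ^ i) atTop (𝓝 0) := by
      have := tendsto_pow_const_div_const_pow_of_one_lt 1 (show (1 : ℝ) < 2 by norm_num)
      simpa using this
    have e3 := e1.add (e2.mul_const K)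
    refine e3.congr fun i => ?_
    ring
  have h5 : ell o a ≤ 0 + 0 * K := by
    refine ge_of_tendsto' h4 fun i => ?_
    rw [le_div_iff₀ (by positivity)]
    have := h3 i
    linarith
  linarith

omit hd in
theorem gp_inv_self (o : X) (h : G) :
    2 * gp o (h⁻¹ • o) (h • o) = 2 * dist o (h • o) - dist o (h ^ 2 • o) := by
  unfold gp
  have e1 : dist (h⁻¹ • o) (h • o) = dist o (h ^ 2 • o) := by
    rw [← dist_smul h, smul_inv_smul, smul_smul, pow_two]
  rw [dist_inv, e1]
  ring

/-- Local to global. -/
theorem local_to_global (o : X) (h : G)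
    (hc : 2 * gp o (h⁻¹ • o) (h • o) + 3 * d < dist o (h • o)) (n m : ℕ) :
    gp o ((h ^ n)⁻¹ • o) (h ^ m • o) ≤ gp o (h⁻¹ • o) (h • o) + 2 * d := by
  have h0 := d_nonneg hd o
  have e0 := gp_inv_self o h
  have hc' : dist o (h • o) + 2 * d < dist o (h ^ 2 • o) := by linarith
  rcases Nat.eq_zero_or_pos n with hn | hn
  · subst hn
    have := gp_nonneg o (h⁻¹ • o) (h • o)
    simp only [pow_zero, inv_one, one_smul]
    rw [gp_self_left]
    linarith
  rcases Nat.eq_zero_or_pos m with hm | hm
  · subst hm
    have := gp_nonneg o (h⁻¹ • o) (h • o)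
    simp only [pow_zero, one_smul]
    rw [gp_self_right]
    linarith
  have key : ∀ k : ℕ, 1 ≤ k →
      gp o (h⁻¹ • o) (h • o) + 2 * d < gp o (h • o) (h ^ k • o) := by
    intro k hk
    obtain ⟨j, rfl⟩ := Nat.exists_eq_add_of_le hk
    have h1 := step_ge hd o h hc' j
    have e1 : dist (h • o) (h ^ (1 + j) • o) = dist o (h ^ j • o) := by
      rw [pow_add, pow_one, mul_smul, dist_smul]
    unfold gp at *
    rw [e1, add_comm 1 j]
    linarith
  have key' : ∀ k : ℕ, 1 ≤ k →
      gp o (h⁻¹ • o) (h • o) + 2 * d < gp o (h⁻¹ • o) ((h ^ k)⁻¹ • o) := by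
    intro k hk
    have h1 := key k hk
    have e1 : gp o (h⁻¹ • o) ((h ^ k)⁻¹ • o) = gp o (h • o) (h ^ k • o) := by
      obtain ⟨j, rfl⟩ := Nat.exists_eq_add_of_le hk
      unfold gp
      rw [dist_inv, dist_inv]
      have e2 : dist (h⁻¹ • o) ((h ^ (1 + j))⁻¹ • o) = dist o (h ^ j • o) := by
        have e4 : (h ^ (1 + j))⁻¹ = h⁻¹ * (h ^ j)⁻¹ := by
          rw [add_comm, pow_succ, mul_inv_rev]
        rw [e4, mul_smul, dist_smul, dist_inv]
      have e3 : dist (h • o) (h ^ (1 + j) • o) = dist o (h ^ j • o) := by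
        rw [pow_add, pow_one, mul_smul, dist_smul]
      rw [e2, e3]
    rw [e1]
    exact h1
  refine gp_transfer hd (x := h⁻¹ • o) (w := h • o) le_rfl (key' n hn) ?_
  rw [gp_comm o (h ^ m • o)]
  exact key m hm

/-- The axis of `h` goes to infinity. -/
theorem dist_pow_ge' (o : X) (h : G)
    (hc : 2 * gp o (h⁻¹ • o) (h • o) + 3 * d < dist o (h • o)) (n : ℕ) :
    n * (dist o (h • o) - 2 * gp o (h⁻¹ • o) (h • o) - 2 * d) ≤ dist o (h ^ n • o) := by
  have h0 := d_nonneg hd o
  have e0 := gp_inv_self o h
  have := dist_pow_ge hd o h (by linarith) n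
  have e1 : dist o (h ^ 2 • o) - dist o (h • o) - 2 * d =
      dist o (h • o) - 2 * gp o (h⁻¹ • o) (h • o) - 2 * d := by linarith
  rwa [e1] at this

/-- The Busemann type function `B_P(g) = dist P (g o) - dist P o` is almost additive when `g⁻¹ P`
and `P` are close seen from `o`. -/
theorem busemann_add (o P : X) (g g' : G)
    (h : dist o (g' • o) ≤ gp o (g⁻¹ • P) P) :
    |(dist P ((g * g') • o) - dist P o) - (dist P (g • o) - dist P o)
      - (dist P (g' • o) - dist P o)| ≤ 2 * d := by
  have e1 : dist P ((g * g') • o) = dist (g⁻¹ • P) (g' • o) := by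
    rw [← dist_smul g⁻¹, smul_smul, inv_mul_cancel_left]
  have e2 : dist P (g • o) = dist (g⁻¹ • P) o := by
    rw [← dist_smul g⁻¹, inv_smul_smul]
  rw [e1, e2]
  set Q := g⁻¹ • P
  set y := g' • o
  have h1 := hd Q o y P
  have h2 := hd P o y Q
  have t1 := dist_triangle Q y o
  have t2 := dist_triangle P y o
  unfold gp at h
  have c1 := dist_comm y o
  have c2 := dist_comm Q o
  have c3 := dist_comm P o
  have c4 := dist_comm y P
  have c5 := dist_comm y Q
  have c6 := dist_comm P Q
  have c7 := dist_comm Q P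
  rw [abs_le]
  constructor
  · -- dist P y + dist Q o ≤ dist Q y + dist P o + 2 d
    rcases le_max_iff.1 (show dist P y + dist o Q - 2 * d ≤
        max (dist P o + dist y Q) (dist P Q + dist o y) by linarith) with h3 | h3
    · linarith
    · linarith
  · rcases le_max_iff.1 (show dist Q y + dist o P - 2 * d ≤
        max (dist Q o + dist y P) (dist Q P + dist o y) by linarith) with h3 | h3
    · linarith
    · linarith

/-- LEMMA E, first half. -/
theorem lemmaE_one (o P Q : X) (g : G) {C : ℝ} (hPQ : gp o P Q ≤ C)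
    (hP : C + dist o (g • o) + 2 * d < gp o (g • P) P)
    (hQ : C + dist o (g • o) + 2 * d < gp o (g • Q) Q) :
    dist o (g • o) ≤ |dist P (g • o) - dist P o| + 2 * C + 6 * d := by
  have h0 := d_nonneg hd o
  have h1 : gp (g • o) P Q ≤ C + 2 * d := by
    refine gp_transfer hd (x := g • P) (w := g • Q) (by rw [gp_smul]; exact hPQ) ?_ ?_
    · have := gp_base o (g • o) (g • P) P
      linarith
    · have := gp_base o (g • o) (g • Q) Q
      rw [gp_comm (g • o) Q (g • Q)]
      linarith
  have h2 := hd P o Q (g • o)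
  unfold gp at h1 hPQ
  have c1 := dist_comm o P
  have c2 := dist_comm o Q
  have c3 := dist_comm (g • o) P
  have c4 := dist_comm (g • o) Q
  rcases le_max_iff.1 (show dist P Q + dist o (g • o) - 2 * d ≤
      max (dist P o + dist Q (g • o)) (dist P (g • o) + dist o Q) by linarith) with h3 | h3
  · have := neg_abs_le (dist P (g • o) - dist P o)
    linarith
  · have := le_abs_self (dist P (g • o) - dist P o)
    linarith

/-- LEMMA E, second half. -/
theorem lemmaE_two (o P Q : X) (g : G) {C : ℝ} (hPQ : gp o P Q ≤ C)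
    (hP : C + dist o (g • o) + 2 * d < gp o (g • P) P)
    (hP' : 2 * dist o (g • o) ≤ gp o (g • P) P)
    (hQ : C + dist o (g • o) + 2 * d < gp o (g • Q) Q) :
    |dist P (g • o) - dist P o| ≤ ell o g + 2 * C + 10 * d := by
  have h0 := d_nonneg hd o
  have h1 := lemmaE_one hd o P Q g hPQ hP hQ
  have h2 := two_step hd o g
  have h3 : dist o (g • o) ≤ gp o (g⁻¹ • P) P := by
    have e1 : gp o (g⁻¹ • P) P = gp (g • o) P (g • P) := by
      rw [← gp_smul g, smul_inv_smul]
    rw [e1, gp_comm]
    have := gp_base o (g • o) (g • P) P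
    linarith
  have h4 := busemann_add hd o P g g h3
  have h5 : |dist P ((g * g) • o) - dist P o| ≤ dist o (g ^ 2 • o) := by
    rw [pow_two, dist_comm P, dist_comm P]
    have := abs_dist_sub_le ((g * g) • o) o P
    rwa [dist_comm ((g * g) • o) o] at this
  set B := dist P (g • o) - dist P o
  set B2 := dist P ((g * g) • o) - dist P o
  have h6 : 2 * |B| - 2 * d ≤ |B2| := by
    have e1 : |2 * B| = 2 * |B| := by rw [abs_mul, abs_two]
    have e2 : |2 * B| ≤ |B2| + |B2 - B - B| := by
      have : 2 * B = B2 - (B2 - B - B) := by ring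
      rw [this]
      exact abs_sub _ _
    linarith
  linarith

/-- Summary: an isometry which (almost) fixes both ends of a quasi-geodesic moves a point of it by
about its stable length. -/
theorem lemmaE_dist (o P Q : X) (g : G) {C : ℝ} (hPQ : gp o P Q ≤ C)
    (hP : C + dist o (g • o) + 2 * d < gp o (g • P) P)
    (hP' : 2 * dist o (g • o) ≤ gp o (g • P) P)
    (hQ : C + dist o (g • o) + 2 * d < gp o (g • Q) Q) :
    dist o (g • o) ≤ ell o g + 4 * C + 16 * d := by
  have h1 := lemmaE_one hd o P Q g hPQ hP hQ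
  have h2 := lemmaE_two hd o P Q g hPQ hP hP' hQ
  linarith

end Action

end Pool.Agent.H13.NL
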