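import Pool.Agent.H13.NL.Hyp

/-!
# Geometric half of the main claim of THEOREM NL (MP_3ca58e_al)

`P = h^(-n) o`, `Q = h^n o`, `w = h^n y h^n`; if `(y Q | P)_o` is bounded then `w` is a long
isometry whose axis passes near `o` and points to `P` and `Q`; every `r` commuting with `w` moves
`o` by at most `ell r + const` and almost fixes `P` and `Q` seen from `o`.
-/

namespace Pool.Agent.H13.NL

open Filter Topology

variable {X : Type*} [PseudoMetricSpace X] {G : Type*} [Group G] [MulAction G X]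
  [IsIsometricSMul G X]

/-- `(w o | Q)_o + (y Q | P)_o = dist o Q` for `w = k y k`, `Q = k o`, `P = k⁻¹ o`. -/
theorem gp_w_add (o : X) (k y : G) :
    gp o ((k * y * k) • o) (k • o) + gp o ((y * k) • o) (k⁻¹ • o) = dist o (k • o) := by
  unfold gp
  have e1 : dist o ((k * y * k) • o) = dist ((y * k) • o) (k⁻¹ • o) := by
    rw [← dist_smul k ((y * k) • o), smul_inv_smul, smul_smul, mul_assoc, dist_comm]
  have e2 : dist ((k * y * k) • o) (k • o) = dist o ((y * k) • o) := by
    rw [mul_assoc, mul_smul k (y * k), dist_smul, dist_comm]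
  rw [e1, e2, dist_inv]
  ring

/-- Upper bound for `(y⁻¹ P | Q)_o`. -/
theorem gp_inv_bound (o : X) (k y : G) {C' : ℝ}
    (hy : gp o ((y * k) • o) (k⁻¹ • o) ≤ C') :
    gp o ((y⁻¹ * k⁻¹) • o) (k • o) ≤ C' + dist o (y • o) := by
  unfold gp at *
  have e1 : dist o ((y⁻¹ * k⁻¹) • o) = dist (y • o) (k⁻¹ • o) := by
    rw [← dist_smul y o, smul_smul, mul_inv_cancel_left]
  have e2 : dist ((y⁻¹ * k⁻¹) • o) (k • o) = dist ((y * k) • o) (k⁻¹ • o) := by
    rw [← dist_smul y ((y⁻¹ * k⁻¹) • o), smul_smul, smul_smul, mul_inv_cancel_left, dist_comm]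
  rw [e1, e2]
  rw [dist_inv] at hy
  have h1 := dist_triangle (y • o) o (k⁻¹ • o)
  rw [dist_inv, dist_comm (y • o) o] at h1
  -- dist o (y k o) ≥ dist o (k o) - dist o (y o)
  have h2 : dist o (k • o) ≤ dist o ((y * k) • o) + dist o (y • o) := by
    have h3 := dist_mul_le o y⁻¹ (y * k)
    rw [inv_mul_cancel_left, dist_inv] at h3
    linarith
  linarith

/-- A point moved little: `(r P | P)_o` is large when `P = v o` and `r` commutes with `v`. -/
theorem gp_comm_large (o : X) (r v : G) (h : Commute r v) :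
    dist o (v • o) - dist o (r • o) ≤ gp o (r • v • o) (v • o) := by
  have h1 := gp_near o (v • o) (r • v • o)
  have h2 : dist (v • o) (r • v • o) = dist o (r • o) := by
    rw [smul_smul, h.eq, mul_smul, dist_smul]
  rw [h2, gp_comm] at h1
  exact h1

/-- `(y Q | P)_o` is bounded if `y` commutes with `k`. -/
theorem gp_commute_bound (o : X) (k y : G) (h : Commute y k) :
    gp o ((y * k) • o) (k⁻¹ • o) ≤ gp o (k • o) (k⁻¹ • o) + dist o (y • o) := by
  have h1 := gp_move o ((y * k) • o) (k • o) (k⁻¹ • o)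
  have h2 : dist ((y * k) • o) (k • o) = dist o (y • o) := by
    rw [h.eq, mul_smul, dist_smul, dist_comm]
  rw [h2] at h1
  linarith

variable {d : ℝ} (hd : FourPoint X d)

include hd

/-- The geometric half of the main claim: displacement of `r`. -/
theorem main_disp (o : X) (k y r : G) {C C' : ℝ}
    (hPQ : gp o (k⁻¹ • o) (k • o) ≤ C)
    (hy : gp o ((y * k) • o) (k⁻¹ • o) ≤ C')
    (hcomm : Commute r (k * y * k))
    (hb : 2 * C + C' + dist o (y • o) + 7 * d < dist o (k • o)) :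
    dist o (r • o) ≤ ell o r + 4 * C + 32 * d := by
  have h0 := d_nonneg hd o
  have hC0 : 0 ≤ C := (gp_nonneg _ _ _).trans hPQ
  set w := k * y * k with hw
  have hQ : dist o (k • o) - C' ≤ gp o (w • o) (k • o) := by
    have := gp_w_add o k y
    rw [← hw] at this
    linarith
  have hP : dist o (k • o) - C' - dist o (y • o) ≤ gp o (w⁻¹ • o) (k⁻¹ • o) := by
    have h1 := gp_w_add o k⁻¹ y⁻¹
    have h2 := gp_inv_bound o k y hy
    have e1 : k⁻¹ * y⁻¹ * k⁻¹ = w⁻¹ := by rw [hw]; group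
    rw [e1, inv_inv, dist_inv] at h1
    linarith
  have hdy : 0 ≤ dist o (y • o) := dist_nonneg
  have hww : gp o (w⁻¹ • o) (w • o) ≤ C + 2 * d := by
    refine gp_transfer hd (x := k⁻¹ • o) (w := k • o) hPQ ?_ ?_
    · rw [gp_comm]; linarith
    · linarith
  have hwlong : dist o (k • o) - C' ≤ dist o (w • o) := hQ.trans (gp_le_left _ _ _)
  have hl2g : 2 * gp o (w⁻¹ • o) (w • o) + 3 * d < dist o (w • o) := by linarith
  -- growth of the powers of w
  have hgrow := dist_pow_ge' hd o w hl2g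
  have hpos : 0 < dist o (w • o) - 2 * gp o (w⁻¹ • o) (w • o) - 2 * d := by linarith
  set c := dist o (w • o) - 2 * gp o (w⁻¹ • o) (w • o) - 2 * d with hc
  obtain ⟨N, hN⟩ := exists_nat_gt ((C + 6 * d + 3 * dist o (r • o) + 1) / c)
  rw [div_lt_iff₀ hpos] at hN
  have hNlong : C + 6 * d + 3 * dist o (r • o) + 1 < dist o (w ^ N • o) :=
    lt_of_lt_of_le hN (hgrow N)
  have hr0 : 0 ≤ dist o (r • o) := dist_nonneg
  have hcN : Commute r (w ^ N) := hcomm.pow_right N
  have g1 := gp_comm_large o r (w ^ N)⁻¹ hcN.inv_right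
  have g2 := gp_comm_large o r (w ^ N) hcN
  rw [dist_inv] at g1
  have hfin := lemmaE_dist hd o ((w ^ N)⁻¹ • o) (w ^ N • o) r (C := C + 4 * d)
    (by have := local_to_global hd o w hl2g N N; linarith)
    (by linarith) (by linarith) (by linarith)
  linarith

/-- The geometric half of the main claim: `r` almost fixes `Q`. -/
theorem main_Q (o : X) (k y r : G) {C C' : ℝ}
    (hPQ : gp o (k⁻¹ • o) (k • o) ≤ C)
    (hy : gp o ((y * k) • o) (k⁻¹ • o) ≤ C')
    (hcomm : Commute r (k * y * k))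
    (hb : 2 * C + C' + dist o (y • o) + 7 * d < dist o (k • o)) :
    dist o (k • o) - C' - (ell o r + 4 * C + 34 * d) ≤ gp o (r • k • o) (k • o) := by
  have h0 := d_nonneg hd o
  have hdisp := main_disp hd o k y r hPQ hy hcomm hb
  set w := k * y * k with hw
  have hQ : dist o (k • o) - C' ≤ gp o (w • o) (k • o) := by
    have := gp_w_add o k y
    rw [← hw] at this
    linarith
  have hwlong : dist o (k • o) - C' ≤ dist o (w • o) := hQ.trans (gp_le_left _ _ _)
  have g2 := gp_comm_large o r w hcomm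
  have g1 : dist o (k • o) - C' - dist o (r • o) ≤ gp o (r • k • o) (r • w • o) := by
    have h1 := gp_base (r • o) o (r • k • o) (r • w • o)
    rw [gp_smul, dist_comm (r • o) o, gp_comm o (k • o)] at h1
    linarith
  have h3 := gp_min3 hd o (r • k • o) (r • w • o) (w • o) (k • o)
  have h4 : dist o (k • o) - C' - dist o (r • o) ≤
      min (gp o (r • k • o) (r • w • o)) (min (gp o (r • w • o) (w • o)) (gp o (w • o) (k • o))) := by
    have hr0 : 0 ≤ dist o (r • o) := dist_nonneg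
    refine le_min g1 (le_min ?_ ?_) <;> linarith
  linarith

/-- The geometric half of the main claim: `r` almost fixes `P`. -/
theorem main_P (o : X) (k y r : G) {C C' : ℝ}
    (hPQ : gp o (k⁻¹ • o) (k • o) ≤ C)
    (hy : gp o ((y * k) • o) (k⁻¹ • o) ≤ C')
    (hcomm : Commute r (k * y * k))
    (hb : 2 * C + C' + dist o (y • o) + 7 * d < dist o (k • o)) :
    dist o (k • o) - C' - dist o (y • o) - (ell o r + 4 * C + 34 * d) ≤
      gp o (r • k⁻¹ • o) (k⁻¹ • o) := by
  have h0 := d_nonneg hd o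
  have hdisp := main_disp hd o k y r hPQ hy hcomm hb
  set w := k * y * k with hw
  have hQ : dist o (k • o) - C' ≤ gp o (w • o) (k • o) := by
    have := gp_w_add o k y
    rw [← hw] at this
    linarith
  have hP : dist o (k • o) - C' - dist o (y • o) ≤ gp o (w⁻¹ • o) (k⁻¹ • o) := by
    have h1 := gp_w_add o k⁻¹ y⁻¹
    have h2 := gp_inv_bound o k y hy
    have e1 : k⁻¹ * y⁻¹ * k⁻¹ = w⁻¹ := by rw [hw]; group
    rw [e1, inv_inv, dist_inv] at h1
    linarith
  have hdy : 0 ≤ dist o (y • o) := dist_nonneg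
  have hwlong : dist o (k • o) - C' ≤ dist o (w • o) := hQ.trans (gp_le_left _ _ _)
  have g2 := gp_comm_large o r w⁻¹ hcomm.inv_right
  rw [dist_inv] at g2
  have g1 : dist o (k • o) - C' - dist o (y • o) - dist o (r • o) ≤
      gp o (r • k⁻¹ • o) (r • w⁻¹ • o) := by
    have h1 := gp_base (r • o) o (r • k⁻¹ • o) (r • w⁻¹ • o)
    rw [gp_smul, dist_comm (r • o) o, gp_comm o (k⁻¹ • o)] at h1
    linarith
  have h3 := gp_min3 hd o (r • k⁻¹ • o) (r • w⁻¹ • o) (w⁻¹ • o) (k⁻¹ • o)
  have h4 : dist o (k • o) - C' - dist o (y • o) - dist o (r • o) ≤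
      min (gp o (r • k⁻¹ • o) (r • w⁻¹ • o))
        (min (gp o (r • w⁻¹ • o) (w⁻¹ • o)) (gp o (w⁻¹ • o) (k⁻¹ • o))) := by
    have hr0 : 0 ≤ dist o (r • o) := dist_nonneg
    refine le_min g1 (le_min ?_ ?_) <;> linarith
  linarith

/-- If `y` and `y⁻¹` swap `Q` to `P` then `y²` satisfies the hypothesis of the main claim. -/
theorem swap_sq (o : X) (k y : G) {C K : ℝ}
    (hPQ : gp o (k⁻¹ • o) (k • o) ≤ C)
    (hy : K ≤ gp o ((y * k) • o) (k⁻¹ • o))
    (hy' : K ≤ gp o ((y⁻¹ * k) • o) (k⁻¹ • o))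
    (hK : C + 2 * d + dist o (y • o) < K) :
    gp o ((y * y * k) • o) (k⁻¹ • o) ≤ C + d := by
  have h0 := d_nonneg hd o
  -- (y² Q | y P)_o
  have g1 : K - dist o (y • o) ≤ gp o ((y * y * k) • o) (y • k⁻¹ • o) := by
    have h1 := gp_base (y • o) o (y • (y * k) • o) (y • k⁻¹ • o)
    rw [gp_smul, dist_comm (y • o) o, smul_smul, ← mul_assoc] at h1
    linarith
  -- (y P | Q)_o
  have g2 : K - dist o (y • o) ≤ gp o (y • k⁻¹ • o) (k • o) := by
    have h1 := gp_base (y • o) o (y • k⁻¹ • o) (y • (y⁻¹ * k) • o)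
    rw [gp_smul, dist_comm (y • o) o, smul_smul y (y⁻¹ * k), mul_inv_cancel_left,
      gp_comm o (k⁻¹ • o)] at h1
    linarith
  have h3 := gp_min hd o ((y * y * k) • o) (y • k⁻¹ • o) (k • o)
  have h4 : K - dist o (y • o) ≤ min (gp o ((y * y * k) • o) (y • k⁻¹ • o))
      (gp o (y • k⁻¹ • o) (k • o)) := le_min g1 g2
  have h5 := gp_min hd o (k⁻¹ • o) ((y * y * k) • o) (k • o)
  by_contra hcon
  push Not at hcon
  have h6 : C + d < min (gp o (k⁻¹ • o) ((y * y * k) • o)) (gp o ((y * y * k) • o) (k • o)) := by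
    refine lt_min ?_ ?_
    · rw [gp_comm]; exact hcon
    · linarith
  linarith

end Pool.Agent.H13.NL
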